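import Mathlib
import Pool.Agent.H52.XR2.S1
import Pool.Agent.H91.XR.B1

set_option autoImplicit false

open MeasureTheory Set Filter Topology Metric Asymptotics
open scoped Real ENNReal RealInnerProductSpace

namespace Pool.XR2

open Pool.Agent.H45.XR

namespace SLP

lemma abs_tc_le (φ : ℝ) (z : ℂ) : |tc φ z| ≤ ‖z‖ := by
  have h1 : tc φ z ^ 2 + yc φ z ^ 2 = ‖z‖ ^ 2 := by
    rw [← Complex.normSq_eq_norm_sq, Complex.normSq_apply]
    simp only [tc, yc]
    linear_combination (z.re ^ 2 + z.im ^ 2) * Real.sin_sq_add_cos_sq φ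
  exact abs_le_of_sq_le_sq (by nlinarith [sq_nonneg (yc φ z)]) (norm_nonneg z)

lemma abs_yc_le (φ : ℝ) (z : ℂ) : |yc φ z| ≤ ‖z‖ := by
  have h1 : tc φ z ^ 2 + yc φ z ^ 2 = ‖z‖ ^ 2 := by
    rw [← Complex.normSq_eq_norm_sq, Complex.normSq_apply]
    simp only [tc, yc]
    linear_combination (z.re ^ 2 + z.im ^ 2) * Real.sin_sq_add_cos_sq φ
  exact abs_le_of_sq_le_sq (by nlinarith [sq_nonneg (tc φ z)]) (norm_nonneg z)

lemma tc_line (φ : ℝ) (z : ℂ) (s : ℝ) : tc φ (z + s * e φ) = tc φ z := by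
  rw [tc_add, tc_mul]; simp

lemma yc_line (φ : ℝ) (z : ℂ) (s : ℝ) : yc φ (z + s * e φ) = yc φ z + s := by
  rw [yc_add, yc_mul]; simp

lemma tc_rot' (φ δ : ℝ) (z : ℂ) :
    tc (φ + δ) z = Real.cos δ * tc φ z - Real.sin δ * yc φ z := by
  simp only [tc, yc, Real.cos_add, Real.sin_add]
  ring

/-- F1 -/
lemma tc_bd {C C' : Set ℂ} {φ R : ℝ} (hC' : Body C') (hR : C ⊆ closedBall (0 : ℂ) R)
    (hX : SameX C C' φ) {z : ℂ} (hz : z ∈ C') : |tc φ z| ≤ R := by
  by_contra hcon
  push Not at hcon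
  have hlim : Tendsto (fun ε : ℝ => (((1 - ε : ℝ)) : ℂ) * z) (𝓝[>] 0) (𝓝 z) := by
    have : Tendsto (fun ε : ℝ => (((1 - ε : ℝ)) : ℂ) * z) (𝓝 0) (𝓝 ((((1 - 0 : ℝ)) : ℂ) * z)) := by
      apply Continuous.tendsto
      fun_prop
    simp only [sub_zero, Complex.ofReal_one, one_mul] at this
    exact this.mono_left nhdsWithin_le_nhds
  have hev : ∀ᶠ ε : ℝ in 𝓝[>] 0, R < |tc φ ((((1 - ε : ℝ)) : ℂ) * z)| := by
    have h1 : Tendsto (fun ε : ℝ => |tc φ ((((1 - ε : ℝ)) : ℂ) * z)|) (𝓝[>] 0) (𝓝 |tc φ z|) :=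
      (((continuous_tc φ).abs).tendsto z).comp hlim
    exact h1.eventually (lt_mem_nhds hcon)
  have hev2 : ∀ᶠ ε : ℝ in 𝓝[>] 0, ε ∈ Ioo (0 : ℝ) 1 := Ioo_mem_nhdsGT zero_lt_one
  obtain ⟨ε, h1, h2⟩ := (hev.and hev2).exists
  set w : ℂ := (((1 - ε : ℝ)) : ℂ) * z with hw
  have hwi : w ∈ interior C' := by
    have := hC'.conv.combo_interior_self_mem_interior hC'.zero hz h2.1
      (by linarith [h2.2] : (0 : ℝ) ≤ 1 - ε) (by ring)
    simpa [hw] using this
  have hpos : 0 < volume {s : ℝ | w + s * e φ ∈ C'} := by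
    have hopen : IsOpen {s : ℝ | w + s * e φ ∈ interior C'} :=
      isOpen_interior.preimage (by fun_prop)
    have hne : ({s : ℝ | w + s * e φ ∈ interior C'}).Nonempty := ⟨0, by simpa using hwi⟩
    exact lt_of_lt_of_le (hopen.measure_pos volume hne)
      (measure_mono fun s (hs : w + s * e φ ∈ interior C') => (interior_subset hs : _ ∈ C'))
  rw [← hX w] at hpos
  have hemp : {s : ℝ | w + s * e φ ∈ C} = ∅ := by
    ext s
    simp only [mem_ofPred_eq, mem_empty_iff_false, iff_false]
    intro hs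
    have h3 := hR hs
    rw [mem_closedBall, dist_zero_right] at h3
    have h4 := abs_tc_le φ (w + s * e φ)
    rw [tc_line] at h4
    linarith
  rw [hemp] at hpos
  simp at hpos

/-- F2 -/
lemma yc_bd {C C' : Set ℂ} {φ R : ℝ} (hC' : Body C') (hR : C ⊆ closedBall (0 : ℂ) R)
    (h0 : 0 ≤ R) (hX : SameX C C' φ) {z w : ℂ} (hz : z ∈ C') (hw : w ∈ C')
    (ht : tc φ z = tc φ w) : |yc φ z - yc φ w| ≤ 2 * R := by
  have hup : ∀ p : ℂ, volume {s : ℝ | p + s * e φ ∈ C} ≤ ENNReal.ofReal (2 * R) := by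
    intro p
    have : {s : ℝ | p + s * e φ ∈ C} ⊆ Icc (-R - yc φ p) (R - yc φ p) := by
      intro s hs
      have h3 := hR hs
      rw [mem_closedBall, dist_zero_right] at h3
      have h4 := abs_yc_le φ (p + s * e φ)
      rw [yc_line] at h4
      have h5 := abs_le.1 (h4.trans h3)
      constructor <;> linarith [h5.1, h5.2]
    refine (measure_mono this).trans ?_
    rw [Real.volume_Icc]
    apply le_of_eq
    congr 1
    ring
  have hlow : ∀ p q : ℂ, p ∈ C' → q ∈ C' → tc φ p = tc φ q → yc φ p ≤ yc φ q →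
      yc φ q - yc φ p ≤ 2 * R := by
    intro p q hp hq hpq hle
    have hsub : Icc 0 (yc φ q - yc φ p) ⊆ {s : ℝ | p + s * e φ ∈ C'} := by
      intro s hs
      rw [mem_ofPred_eq]
      rcases eq_or_lt_of_le hle with h | h
      · have : s = 0 := by
          have := hs.2
          rw [h, sub_self] at this
          exact le_antisymm this hs.1
        rw [this]
        simpa using hp
      · have hq' := eq_add_of_tc_eq hpq.symm
        have hd : 0 < yc φ q - yc φ p := by linarith
        have h6 := hC'.conv hp hq (a := 1 - s / (yc φ q - yc φ p)) (b := s / (yc φ q - yc φ p))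
          (by
            have : s / (yc φ q - yc φ p) ≤ 1 := (div_le_one hd).2 hs.2
            linarith) (div_nonneg hs.1 hd.le) (by ring)
        have h8 : (s / (yc φ q - yc φ p)) * (yc φ q - yc φ p) = s := by field_simp
        have h9 : ((s / (yc φ q - yc φ p) : ℝ) : ℂ) * ((yc φ q - yc φ p : ℝ) : ℂ) = (s : ℂ) := by
          rw [← Complex.ofReal_mul, h8]
        have h10 : p + s * e φ = (1 - s / (yc φ q - yc φ p)) • p +
            (s / (yc φ q - yc φ p)) • (p + ((yc φ q - yc φ p : ℝ) : ℂ) * e φ) := by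
          rw [← h9]
          simp only [Complex.real_smul, Complex.ofReal_sub, Complex.ofReal_one]
          ring
        rw [h10, ← hq']
        exact h6
    have h8 : ENNReal.ofReal (yc φ q - yc φ p) ≤ ENNReal.ofReal (2 * R) := by
      calc ENNReal.ofReal (yc φ q - yc φ p) = volume (Icc 0 (yc φ q - yc φ p)) := by
            rw [Real.volume_Icc, sub_zero]
        _ ≤ volume {s : ℝ | p + s * e φ ∈ C'} := measure_mono hsub
        _ = volume {s : ℝ | p + s * e φ ∈ C} := (hX p).symm
        _ ≤ _ := hup p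
    exact (ENNReal.ofReal_le_ofReal_iff (by linarith)).1 h8
  rw [abs_le]
  rcases le_total (yc φ z) (yc φ w) with h | h
  · have := hlow z w hz hw ht h
    constructor <;> linarith
  · have := hlow w z hw hz ht.symm h
    constructor <;> linarith

/-- F3 -/
lemma line_bd {C C' : Set ℂ} {φ R : ℝ} (hC' : Body C') (hR : C ⊆ closedBall (0 : ℂ) R)
    (h0 : 0 ≤ R) (hX : SameX C C' φ) :
    ∃ a β : ℝ, ∀ z ∈ C', |yc φ z - (a * tc φ z + β)| ≤ 2 * R := by
  have hne : C'.Nonempty := ⟨0, interior_subset hC'.zero⟩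
  obtain ⟨p, hp, hpm⟩ := hC'.cpt.exists_isMinOn hne (continuous_tc φ).continuousOn
  obtain ⟨q, hq, hqm⟩ := hC'.cpt.exists_isMaxOn hne (continuous_tc φ).continuousOn
  have hpq : tc φ p < tc φ q := by
    obtain ⟨δ, hδ, hsub⟩ := Metric.isOpen_iff.1 isOpen_interior 0 hC'.zero
    have h1 : (((δ / 2 : ℝ)) : ℂ) * (Complex.I * e φ) ∈ C' := by
      apply interior_subset
      apply hsub
      rw [mem_ball, dist_zero_right, norm_mul, norm_mul]
      simp only [Complex.norm_real, Complex.norm_I, norm_e, Real.norm_eq_abs]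
      rw [abs_of_pos (by linarith)]
      linarith
    have h2 : tc φ ((((δ / 2 : ℝ)) : ℂ) * (Complex.I * e φ)) = δ / 2 := by
      have := tc_fr φ (δ / 2, 0)
      simpa [fr] using this
    have h3 := hqm h1
    have h4 := hpm (interior_subset hC'.zero)
    simp only [mem_ofPred_eq] at h3 h4
    rw [h2] at h3
    rw [tc_zero] at h4
    linarith
  have hd : 0 < tc φ q - tc φ p := by linarith
  refine ⟨(yc φ q - yc φ p) / (tc φ q - tc φ p),
    yc φ p - (yc φ q - yc φ p) / (tc φ q - tc φ p) * tc φ p, fun z hz => ?_⟩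
  have hz1 : tc φ p ≤ tc φ z := hpm hz
  have hz2 : tc φ z ≤ tc φ q := hqm hz
  set l := (tc φ z - tc φ p) / (tc φ q - tc φ p) with hl
  have hl0 : 0 ≤ l := div_nonneg (by linarith) hd.le
  have hl1 : l ≤ 1 := (div_le_one hd).2 (by linarith)
  have hw := hC'.conv hp hq (a := 1 - l) (b := l) (by linarith) hl0 (by ring)
  have hlm : l * (tc φ q - tc φ p) = tc φ z - tc φ p := by
    rw [hl]; field_simp
  have h1 : tc φ ((1 - l) • p + l • q) = tc φ z := by
    rw [tc_add, tc_smul, tc_smul]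
    linarith
  have h2 : yc φ ((1 - l) • p + l • q) = (yc φ q - yc φ p) / (tc φ q - tc φ p) * tc φ z +
      (yc φ p - (yc φ q - yc φ p) / (tc φ q - tc φ p) * tc φ p) := by
    rw [yc_add, yc_smul, yc_smul, hl]
    field_simp
    ring
  have h3 := yc_bd hC' hR h0 hX hz hw h1.symm
  rw [h2] at h3
  exact h3

lemma sq_moment {C C' : Set ℂ} (hc : IsCompact C)
    (hc' : IsCompact C') {φ : ℝ} (hX : SameX C C' φ) :
    ∫ z in C, tc φ z ^ 2 = ∫ z in C', tc φ z ^ 2 := by
  have hm : Measurable (tc φ) := (continuous_tc φ).measurable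
  have key : Measure.map (tc φ) (volume.restrict C) = Measure.map (tc φ) (volume.restrict C') := by
    ext T hT
    rw [Measure.map_apply hm hT, Measure.map_apply hm hT, Measure.restrict_apply (hm hT),
      Measure.restrict_apply (hm hT), inter_comm, inter_comm _ C']
    exact sameX_tc hc hc' hX hT
  have h1 : ∀ D : Set ℂ, ∫ z in D, tc φ z ^ 2 =
      ∫ x, x ^ 2 ∂(Measure.map (tc φ) (volume.restrict D)) := by
    intro D
    exact (integral_map (f := fun x : ℝ => x ^ 2) hm.aemeasurable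
      (by fun_prop : Continuous fun x : ℝ => x ^ 2).aestronglyMeasurable).symm
  rw [h1, h1, key]

lemma yc_eq_tc (φ : ℝ) (z : ℂ) : yc φ z = - tc (φ + π / 2) z := by
  rw [tc_rot']
  simp

lemma integral_yc {C : Set ℂ} (hc : IsCompact C) (φ : ℝ) :
    ∫ z in C, yc φ z = yc φ (∫ z in C, z) := by
  rw [yc_eq_tc, ← integral_tc hc, ← integral_neg]
  exact integral_congr_ae (Eventually.of_forall fun z => yc_eq_tc φ z)

lemma abs_int_le {C : Set ℂ} (hc : IsCompact C) {f : ℂ → ℝ} {B : ℝ}
    (h : ∀ z ∈ C, |f z| ≤ B) : |∫ z in C, f z| ≤ B * (volume C).toReal := by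
  have := norm_setIntegral_le_of_norm_le_const (μ := volume) (s := C) (f := f) (C := B)
    hc.measure_lt_top (fun z hz => by simpa [Real.norm_eq_abs] using h z hz)
  simpa [measureReal_def, Real.norm_eq_abs] using this

/-- lower bound for the second moment -/
lemma sq_lower {C : Set ℂ} {r : ℝ} (hr : 0 < r) (hc : IsCompact C)
    (hin : ball (0 : ℂ) r ⊆ C) (φ : ℝ) :
    (r / 4) ^ 2 * (volume (closedBall (0 : ℂ) (r / 4))).toReal ≤ ∫ z in C, tc φ z ^ 2 := by
  set x0 : ℂ := (((r / 2 : ℝ)) : ℂ) * (Complex.I * e φ) with hx0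
  have hx0n : ‖x0‖ = r / 2 := by
    rw [hx0, norm_mul, norm_mul]
    simp only [Complex.norm_real, Complex.norm_I, norm_e, Real.norm_eq_abs]
    rw [abs_of_pos (by linarith)]
    ring
  have hx0t : tc φ x0 = r / 2 := by
    have := tc_fr φ (r / 2, 0)
    simpa [fr, hx0] using this
  have hsub : closedBall x0 (r / 4) ⊆ C := by
    intro z hz
    apply hin
    rw [mem_closedBall, dist_eq_norm] at hz
    rw [mem_ball, dist_zero_right]
    calc ‖z‖ = ‖(z - x0) + x0‖ := by ring_nf
      _ ≤ ‖z - x0‖ + ‖x0‖ := norm_add_le _ _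
      _ < r := by linarith
  have hge : ∀ z ∈ closedBall x0 (r / 4), (r / 4) ^ 2 ≤ tc φ z ^ 2 := by
    intro z hz
    rw [mem_closedBall, dist_eq_norm] at hz
    have h1 := abs_tc_le φ (z - x0)
    rw [tc_sub, hx0t] at h1
    have h2 := (abs_le.1 (h1.trans hz)).1
    have h3 : r / 4 ≤ tc φ z := by linarith
    nlinarith
  have hint : IntegrableOn (fun z => tc φ z ^ 2) C volume :=
    ((continuous_tc φ).pow 2).continuousOn.integrableOn_compact hc
  have hvol : volume (closedBall (0 : ℂ) (r / 4)) = volume (closedBall x0 (r / 4)) := by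
    rw [Complex.volume_closedBall, Complex.volume_closedBall]
  rw [hvol]
  calc (r / 4) ^ 2 * (volume (closedBall x0 (r / 4))).toReal
      = ∫ z in closedBall x0 (r / 4), (r / 4) ^ 2 := by
        rw [setIntegral_const, measureReal_def, smul_eq_mul, mul_comm]
    _ ≤ ∫ z in closedBall x0 (r / 4), tc φ z ^ 2 := by
        apply setIntegral_mono_on _ (hint.mono_set hsub) isClosed_closedBall.measurableSet hge
        exact integrableOn_const (isCompact_closedBall _ _).measure_lt_top.ne
    _ ≤ ∫ z in C, tc φ z ^ 2 := by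
        apply setIntegral_mono_set hint
        · exact Eventually.of_forall fun z => sq_nonneg _
        · exact hsub.eventuallyLE

/-- the arithmetic at the end -/
lemma arith {a c K : ℝ} (hK : 1 ≤ K) (hc : 0 ≤ c)
    (h : |a| * |a - 2 * c| ≤ K * (1 + c + |a|)) : |a| ≤ 6 * K ∨ |a - 2 * c| ≤ 6 * K := by
  by_contra hcon
  push Not at hcon
  obtain ⟨h1, h2⟩ := hcon
  have h3 : 2 * c ≤ |a| + |a - 2 * c| := by
    have h4 : 2 * c = a - (a - 2 * c) := by ring
    calc 2 * c = a - (a - 2 * c) := h4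
      _ ≤ |a - (a - 2 * c)| := le_abs_self _
      _ ≤ |a| + |a - 2 * c| := abs_sub _ _
  set x := |a|
  set b := |a - 2 * c|
  have h5 : 6 * K * b ≤ x * b := by nlinarith
  have h6 : 6 * K * x ≤ x * b := by nlinarith
  have h7 : K * c ≤ K * ((x + b) / 2) := by
    apply mul_le_mul_of_nonneg_left _ (by linarith)
    linarith
  have h8 : K * K ≥ K := by nlinarith
  have h9 : K * b > 6 * (K * K) := by nlinarith
  have h10 : K * x > 6 * (K * K) := by nlinarith
  nlinarith

end SLP

open SLP in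
theorem t_slp : SLPStmt := by
  intro r R hr
  set s0 : ℝ := (r / 4) ^ 2 * (volume (closedBall (0 : ℂ) (r / 4))).toReal with hs0
  have hs0p : 0 < s0 := by
    rw [hs0]
    apply mul_pos (by positivity)
    apply ENNReal.toReal_pos
    · exact (measure_closedBall_pos volume _ (by linarith)).ne'
    · exact (isCompact_closedBall _ _).measure_lt_top.ne
  set V0 : ℝ := (volume (closedBall (0 : ℂ) R)).toReal with hV0
  have hV0n : 0 ≤ V0 := ENNReal.toReal_nonneg
  set K : ℝ := 17 * R ^ 2 * V0 / s0 + 1 with hK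
  have hK1 : 1 ≤ K := by
    have : 0 ≤ 17 * R ^ 2 * V0 / s0 := by positivity
    linarith
  refine ⟨(6 * K + 4) * |R| + 1, by positivity, π / 2, by positivity, ?_⟩
  intro C C' φ θ hB hI hP hθ
  have hR0 : 0 ≤ R := by
    have := hB.out (interior_subset hB.body.zero)
    simpa using this
  have hθ0 : 0 < θ := by linarith [hP.h01]
  have hcos : 0 < Real.cos θ := Real.cos_pos_of_mem_Ioo ⟨by linarith, hθ⟩
  have hsin : 0 < Real.sin θ := Real.sin_pos_of_pos_of_lt_pi hθ0 (by linarith [Real.pi_pos])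
  have hC := hP.b.cpt
  have hC' := hP.b'.cpt
  have hI' : ∫ z in C', z = 0 := by
    rw [← sameX_integral hC hC' hP.h01 hP.h10 hP.x0 hP.x1, hI]
  have hvol : volume C = volume C' := sameX_volume hC hC' hP.x0
  set V : ℝ := (volume C').toReal with hV
  have hVp : 0 < V := by
    rw [hV]
    apply ENNReal.toReal_pos
    · exact (Measure.measure_pos_of_nonempty_interior volume ⟨0, hP.b'.zero⟩).ne'
    · exact hC'.measure_lt_top.ne
  have hVV : V ≤ V0 := by
    rw [hV, ← hvol]
    exact ENNReal.toReal_mono (isCompact_closedBall _ _).measure_lt_top.ne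
      (measure_mono hB.out)
  obtain ⟨a, β, hab⟩ := line_bd hP.b' hB.out hR0 hP.x0
  have hct : Continuous (tc φ) := continuous_tc φ
  have hcy : Continuous (yc φ) := continuous_yc φ
  have iOn : ∀ {f : ℂ → ℝ}, Continuous f → ∀ {D : Set ℂ}, IsCompact D → IntegrableOn f D volume :=
    fun hf D hD => hf.continuousOn.integrableOn_compact hD
  have it0 : ∫ z in C', tc φ z = 0 := by rw [integral_tc hC', hI', tc_zero]
  have iy0 : ∫ z in C', yc φ z = 0 := by rw [integral_yc hC', hI', yc_zero]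
  have hβ : |β| ≤ 2 * R := by
    have h1 : ∫ z in C', (yc φ z - (a * tc φ z + β)) = - (β * V) := by
      rw [integral_sub (iOn hcy hC'), integral_add, integral_const_mul, it0, iy0,
        setIntegral_const, measureReal_def, smul_eq_mul]
      · simp [mul_comm, hV]
      · exact iOn (by fun_prop) hC'
      · exact iOn (by fun_prop) hC'
      · exact iOn (by fun_prop) hC'
    have h2 := abs_int_le hC' hab
    rw [h1, abs_neg, abs_mul, abs_of_pos hVp] at h2
    exact le_of_mul_le_mul_right h2 hVp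
  have hρ : ∀ z ∈ C', |yc φ z - a * tc φ z| ≤ 4 * R := by
    intro z hz
    have h1 := hab z hz
    have h2 : yc φ z - a * tc φ z = (yc φ z - (a * tc φ z + β)) + β := by ring
    rw [h2]
    calc _ ≤ |yc φ z - (a * tc φ z + β)| + |β| := abs_add_le _ _
      _ ≤ _ := by linarith
  have htb : ∀ z ∈ C', |tc φ z| ≤ R := fun z hz => tc_bd hP.b' hB.out hP.x0 hz
  have htbC : ∀ z ∈ C, |tc φ z| ≤ R := fun z hz => (abs_tc_le φ z).trans (by
    have := hB.out hz
    simpa using this)
  have hybC : ∀ z ∈ C, |yc φ z| ≤ R := fun z hz => (abs_yc_le φ z).trans (by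
    have := hB.out hz
    simpa using this)
  -- the moments
  set σ := ∫ z in C', tc φ z ^ 2 with hσ
  set τ := ∫ z in C', tc φ z * (yc φ z - a * tc φ z) with hτ
  set q := ∫ z in C', (yc φ z - a * tc φ z) ^ 2 with hq
  set T := ∫ z in C, tc φ z * yc φ z with hT
  set Y := ∫ z in C, yc φ z ^ 2 with hY
  have hσC : ∫ z in C, tc φ z ^ 2 = σ := sq_moment hC hC' hP.x0
  have hσ0 : s0 ≤ σ := by
    rw [← hσC]
    exact sq_lower hr hC hB.inn φ
  have hT' : ∫ z in C', tc φ z * yc φ z = a * σ + τ := by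
    rw [hσ, hτ, ← integral_const_mul, ← integral_add]
    · apply integral_congr_ae
      exact Eventually.of_forall fun z => by ring
    · exact iOn (by fun_prop) hC'
    · exact iOn (by fun_prop) hC'
  have hY' : ∫ z in C', yc φ z ^ 2 = a ^ 2 * σ + 2 * a * τ + q := by
    rw [hσ, hτ, hq, ← integral_const_mul, ← integral_const_mul, ← integral_add, ← integral_add]
    · apply integral_congr_ae
      exact Eventually.of_forall fun z => by ring
    · exact iOn (by fun_prop) hC'
    · exact iOn (by fun_prop) hC'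
    · exact iOn (by fun_prop) hC'
    · exact iOn (by fun_prop) hC'
  have exp2 : ∀ {D : Set ℂ}, IsCompact D → ∫ z in D, tc (φ + θ) z ^ 2 =
      Real.cos θ ^ 2 * (∫ z in D, tc φ z ^ 2) -
        2 * Real.cos θ * Real.sin θ * (∫ z in D, tc φ z * yc φ z) +
        Real.sin θ ^ 2 * (∫ z in D, yc φ z ^ 2) := by
    intro D hD
    rw [← integral_const_mul, ← integral_const_mul, ← integral_const_mul, ← integral_sub,
      ← integral_add]
    · apply integral_congr_ae
      exact Eventually.of_forall fun z => by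
        simp only [tc_rot']
        ring
    · exact iOn (by fun_prop) hD
    · exact iOn (by fun_prop) hD
    · exact iOn (by fun_prop) hD
    · exact iOn (by fun_prop) hD
  have hm2 := sq_moment hC hC' hP.x1
  rw [exp2 hC, exp2 hC', hσC, hT', hY'] at hm2
  have hτb : |τ| ≤ 4 * R ^ 2 * V0 := by
    have : |τ| ≤ (R * (4 * R)) * V := by
      apply abs_int_le hC'
      intro z hz
      rw [abs_mul]
      exact mul_le_mul (htb z hz) (hρ z hz) (abs_nonneg _) hR0
    have h2 : (R * (4 * R)) * V ≤ (R * (4 * R)) * V0 :=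
      mul_le_mul_of_nonneg_left hVV (by positivity)
    nlinarith
  have hqb : |q| ≤ 16 * R ^ 2 * V0 := by
    have : |q| ≤ ((4 * R) ^ 2) * V := by
      apply abs_int_le hC'
      intro z hz
      rw [abs_pow]
      exact pow_le_pow_left₀ (abs_nonneg _) (hρ z hz) 2
    have h2 : ((4 * R) ^ 2) * V ≤ ((4 * R) ^ 2) * V0 :=
      mul_le_mul_of_nonneg_left hVV (by positivity)
    nlinarith
  have hVC : (volume C).toReal ≤ V0 := by rw [hvol]; exact hVV
  have hTb : |T| ≤ R ^ 2 * V0 := by
    have : |T| ≤ (R * R) * (volume C).toReal := by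
      apply abs_int_le hC
      intro z hz
      rw [abs_mul]
      exact mul_le_mul (htbC z hz) (hybC z hz) (abs_nonneg _) hR0
    have h2 : (R * R) * (volume C).toReal ≤ (R * R) * V0 :=
      mul_le_mul_of_nonneg_left hVC (by positivity)
    nlinarith
  have hYb : |Y| ≤ R ^ 2 * V0 := by
    have : |Y| ≤ (R ^ 2) * (volume C).toReal := by
      apply abs_int_le hC
      intro z hz
      rw [abs_pow]
      exact pow_le_pow_left₀ (abs_nonneg _) (hybC z hz) 2
    have h2 : (R ^ 2) * (volume C).toReal ≤ (R ^ 2) * V0 :=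
      mul_le_mul_of_nonneg_left hVC (by positivity)
    nlinarith
  set c : ℝ := Real.cos θ / Real.sin θ with hc
  have hc0 : 0 < c := div_pos hcos hsin
  have hmain : a * (a - 2 * c) * σ = Y - q + 2 * c * (τ - T) - 2 * a * τ := by
    have hs' : Real.sin θ ≠ 0 := hsin.ne'
    have h1 : Real.sin θ ^ 2 * (a * (a - 2 * c) * σ) =
        Real.sin θ ^ 2 * (Y - q + 2 * c * (τ - T) - 2 * a * τ) := by
      have h2 : Real.cos θ = c * Real.sin θ := by
        rw [hc]; field_simp
      rw [h2] at hm2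
      linear_combination -hm2
    exact mul_left_cancel₀ (pow_ne_zero 2 hs') h1
  have hbig : |a| * |a - 2 * c| * σ ≤ 17 * R ^ 2 * V0 * (1 + c + |a|) := by
    have h1 : |a| * |a - 2 * c| * σ = |Y - q + 2 * c * (τ - T) - 2 * a * τ| := by
      rw [← hmain, abs_mul, abs_mul, abs_of_pos (hs0p.trans_le hσ0)]
    rw [h1]
    have h2 : |Y - q + 2 * c * (τ - T) - 2 * a * τ| ≤
        |Y| + |q| + 2 * c * (|τ| + |T|) + 2 * |a| * |τ| := by
      have e1 := abs_sub (Y - q + 2 * c * (τ - T)) (2 * a * τ)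
      have e2 := abs_add_le (Y - q) (2 * c * (τ - T))
      have e3 := abs_sub Y q
      have e4 := abs_sub τ T
      have e5 : |2 * a * τ| = 2 * |a| * |τ| := by
        rw [abs_mul, abs_mul]; simp
      have e6 : |2 * c * (τ - T)| = 2 * c * |τ - T| := by
        rw [abs_mul, abs_of_pos (by positivity : 0 < 2 * c)]
      have e7 : 2 * c * |τ - T| ≤ 2 * c * (|τ| + |T|) :=
        mul_le_mul_of_nonneg_left e4 (by positivity)
      linarith
    refine h2.trans ?_
    have hW : 0 ≤ R ^ 2 * V0 := by positivity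
    have h3 : 2 * c * (|τ| + |T|) ≤ 2 * c * (5 * (R ^ 2 * V0)) :=
      mul_le_mul_of_nonneg_left (by linarith) (by positivity)
    have h4 : 2 * |a| * |τ| ≤ 2 * |a| * (4 * (R ^ 2 * V0)) :=
      mul_le_mul_of_nonneg_left (by linarith) (by positivity)
    have h5 : 0 ≤ c * (R ^ 2 * V0) := by positivity
    have h6 : 0 ≤ |a| * (R ^ 2 * V0) := by positivity
    nlinarith
  have hfin : |a| * |a - 2 * c| ≤ K * (1 + c + |a|) := by
    have h1 : |a| * |a - 2 * c| * s0 ≤ 17 * R ^ 2 * V0 * (1 + c + |a|) :=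
      (mul_le_mul_of_nonneg_left hσ0 (by positivity)).trans hbig
    have h2 : |a| * |a - 2 * c| ≤ 17 * R ^ 2 * V0 * (1 + c + |a|) / s0 :=
      (le_div_iff₀ hs0p).2 h1
    have h3 : K * (1 + c + |a|) = 17 * R ^ 2 * V0 * (1 + c + |a|) / s0 + (1 + c + |a|) := by
      rw [hK]; ring
    have h4 : 0 ≤ 1 + c + |a| := by positivity
    linarith
  have hRR : |R| = R := abs_of_nonneg hR0
  rcases arith hK1 hc0.le hfin with h | h
  · left
    intro z hz
    have h1 := hρ z hz
    have h2 := htb z hz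
    have h3 : yc φ z = (yc φ z - a * tc φ z) + a * tc φ z := by ring
    have h4 : |yc φ z| ≤ |yc φ z - a * tc φ z| + |a| * |tc φ z| := by
      calc |yc φ z| = |(yc φ z - a * tc φ z) + a * tc φ z| := by rw [← h3]
        _ ≤ _ := by
          rw [← abs_mul]
          exact abs_add_le _ _
    have h5 : |a| * |tc φ z| ≤ (6 * K) * R := mul_le_mul h h2 (abs_nonneg _) (by linarith)
    rw [hRR]
    linarith
  · right
    intro z hz
    have h1 := hρ z hz
    have h2 := htb z hz
    have h4 : |yc φ z - 2 * c * tc φ z| ≤ |yc φ z - a * tc φ z| + |a - 2 * c| * |tc φ z| := by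
      have h3 : yc φ z - 2 * c * tc φ z = (yc φ z - a * tc φ z) + (a - 2 * c) * tc φ z := by ring
      rw [h3, ← abs_mul]
      exact abs_add_le _ _
    have h5 : |a - 2 * c| * |tc φ z| ≤ (6 * K) * R := mul_le_mul h h2 (abs_nonneg _) (by linarith)
    rw [hRR]
    linarith

end Pool.XR2
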