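import Mathlib
import Pool.Agent.H20.XR2.SLP
import Pool.Agent.H7.XR.A1

set_option autoImplicit false

open MeasureTheory Set Filter Topology Metric Asymptotics
open scoped Real ENNReal RealInnerProductSpace

namespace Pool.XR2

open Pool.Agent.H45.XR

namespace TLA

open SLP

/-- slices -/
def sl (D : Set ℂ) (ψ t : ℝ) : Set ℝ := {s : ℝ | fr ψ (t, s) ∈ D}

lemma yc_fr (φ : ℝ) (q : ℝ × ℝ) : yc φ (fr φ q) = q.2 := by
  have h := Real.sin_sq_add_cos_sq φ
  simp only [fr, yc, Complex.add_re, Complex.add_im, Complex.mul_re, Complex.mul_im,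
    Complex.ofReal_re, Complex.ofReal_im, e_re, e_im, Complex.I_re, Complex.I_im]
  linear_combination q.2 * h

lemma fr_cont (φ : ℝ) : Continuous (fr φ) := by
  unfold fr; fun_prop

lemma fr_tc_yc (φ : ℝ) (z : ℂ) : fr φ (tc φ z, yc φ z) = z := by
  have h := decomp φ z
  nth_rewrite 3 [h]
  simp only [fr]
  ring

lemma sl_compact {D : Set ℂ} (hD : IsCompact D) (ψ t : ℝ) : IsCompact (sl D ψ t) := by
  obtain ⟨B, hB⟩ := hD.isBounded.subset_closedBall 0
  apply Metric.isCompact_of_isClosed_isBounded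
  · exact hD.isClosed.preimage ((fr_cont ψ).comp (by fun_prop : Continuous fun s : ℝ => (t, s)))
  · apply (Metric.isBounded_Icc (-B) B).subset
    intro s hs
    have h1 := hB hs
    rw [mem_closedBall, dist_zero_right] at h1
    have h2 := (abs_yc_le ψ (fr ψ (t, s))).trans h1
    rw [yc_fr] at h2
    exact abs_le.1 h2

lemma sl_convex {D : Set ℂ} (hD : Convex ℝ D) (ψ t : ℝ) : Convex ℝ (sl D ψ t) := by
  intro x hx y hy a b ha hb hab
  have := hD hx hy ha hb hab
  simp only [sl, mem_ofPred_eq]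
  convert this using 1
  have h2 : (a : ℂ) + b = 1 := by exact_mod_cast hab
  simp only [fr, Complex.real_smul, smul_eq_mul, Complex.ofReal_add, Complex.ofReal_mul]
  linear_combination (-(t : ℂ) * (Complex.I * e ψ)) * h2

/-- two intervals with the same length and the same first moment -/
lemma icc_eq {a b a' b' : ℝ} (hab : a ≤ b) (hab' : a' ≤ b') (hpos : 0 < b - a)
    (h1 : b - a = b' - a')
    (h2 : ∫ s in Icc a b, s = ∫ s in Icc a' b', s) : a = a' ∧ b = b' := by
  rw [integral_Icc_eq_integral_Ioc, integral_Icc_eq_integral_Ioc,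
    ← intervalIntegral.integral_of_le hab, ← intervalIntegral.integral_of_le hab',
    integral_id, integral_id] at h2
  have h3 : (b - a) * ((b + a) - (b' + a')) = 0 := by
    have : (b' - a') * (b' + a') = (b - a) * (b' + a') := by rw [h1]
    nlinarith
  have h4 : (b + a) - (b' + a') = 0 := (mul_eq_zero.1 h3).resolve_left hpos.ne'
  constructor <;> linarith

lemma sl_eq {D D' : Set ℂ} (hD : Convex ℝ D) (hDc : IsCompact D) (hD' : Convex ℝ D')
    (hDc' : IsCompact D') {ψ t : ℝ} (hv : volume (sl D ψ t) = volume (sl D' ψ t))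
    (hpos : 0 < volume (sl D ψ t)) (hm : ∫ s in sl D ψ t, s = ∫ s in sl D' ψ t, s) :
    sl D ψ t = sl D' ψ t := by
  have key : ∀ E : Set ℂ, Convex ℝ E → IsCompact E → 0 < volume (sl E ψ t) →
      ∃ a b, a < b ∧ sl E ψ t = Icc a b := by
    intro E hE hEc hp
    have hne : (sl E ψ t).Nonempty := by
      by_contra h
      rw [not_nonempty_iff_eq_empty] at h
      rw [h] at hp
      simp at hp
    have hcon : IsConnected (sl E ψ t) := ⟨hne, (sl_convex hE ψ t).isPreconnected⟩
    have heq := eq_Icc_of_connected_compact hcon (sl_compact hEc ψ t)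
    refine ⟨_, _, ?_, heq⟩
    rw [heq, Real.volume_Icc, ENNReal.ofReal_pos] at hp
    linarith
  obtain ⟨a, b, hab, h1⟩ := key D hD hDc hpos
  obtain ⟨a', b', hab', h2⟩ := key D' hD' hDc' (hv ▸ hpos)
  rw [h1, h2] at hm
  rw [h1, h2, Real.volume_Icc, Real.volume_Icc,
    ENNReal.ofReal_eq_ofReal_iff (by linarith) (by linarith)] at hv
  obtain ⟨h3, h4⟩ := icc_eq hab.le hab'.le (by linarith) hv hm
  rw [h1, h2, h3, h4]

lemma fubini {D : Set ℂ} (hDc : IsCompact D) (ψ : ℝ) {g : ℝ → ℝ} (hg : Continuous g) :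
    ∫ z in D, g (tc ψ z) * yc ψ z = ∫ t, g t * ∫ s in sl D ψ t, s := by
  have hcc : Continuous (fun z => g (tc ψ z) * yc ψ z) :=
    (hg.comp (continuous_tc ψ)).mul (continuous_yc ψ)
  have hint : IntegrableOn (fun z => g (tc ψ z) * yc ψ z) D volume :=
    hcc.continuousOn.integrableOn_compact hDc
  have hF : Integrable (D.indicator (fun z => g (tc ψ z) * yc ψ z)) volume :=
    (integrable_indicator_iff hDc.measurableSet).2 hint
  rw [← integral_indicator hDc.measurableSet]
  have hmp := fr_mp ψ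
  have hF' : Integrable (D.indicator (fun z => g (tc ψ z) * yc ψ z))
      (Measure.map (fr ψ) volume) := by rw [hmp.map_eq]; exact hF
  have h1 : ∫ z, D.indicator (fun z => g (tc ψ z) * yc ψ z) z =
      ∫ q, D.indicator (fun z => g (tc ψ z) * yc ψ z) (fr ψ q) := by
    rw [← integral_map hmp.measurable.aemeasurable hF'.aestronglyMeasurable, hmp.map_eq]
  rw [h1]
  have h2 : Integrable (fun q => D.indicator (fun z => g (tc ψ z) * yc ψ z) (fr ψ q))
      ((volume : Measure ℝ).prod volume) := by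
    have := hF'.comp_measurable hmp.measurable
    rw [← Measure.volume_eq_prod]
    exact this
  rw [Measure.volume_eq_prod, integral_prod _ h2]
  refine integral_congr_ae (Eventually.of_forall fun t => ?_)
  simp only
  have h3 : ∀ s, D.indicator (fun z => g (tc ψ z) * yc ψ z) (fr ψ (t, s)) =
      (sl D ψ t).indicator (fun s => g t * s) s := by
    intro s
    by_cases hs : fr ψ (t, s) ∈ D
    · rw [indicator_of_mem hs, indicator_of_mem (show s ∈ sl D ψ t from hs), tc_fr, yc_fr]
    · rw [indicator_of_notMem hs, indicator_of_notMem (show s ∉ sl D ψ t from hs)]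
  simp_rw [h3]
  rw [integral_indicator (sl_compact hDc ψ t).measurableSet, integral_const_mul]

lemma mom_int {D : Set ℂ} (hDc : IsCompact D) (ψ : ℝ) :
    Integrable (fun t => ∫ s in sl D ψ t, s) volume := by
  have hint : IntegrableOn (fun z => yc ψ z) D volume :=
    (continuous_yc ψ).continuousOn.integrableOn_compact hDc
  have hF : Integrable (D.indicator (fun z => yc ψ z)) volume :=
    (integrable_indicator_iff hDc.measurableSet).2 hint
  have hmp := fr_mp ψ
  have hF' : Integrable (D.indicator (fun z => yc ψ z))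
      (Measure.map (fr ψ) volume) := by rw [hmp.map_eq]; exact hF
  have h2 : Integrable (fun q => D.indicator (fun z => yc ψ z) (fr ψ q))
      ((volume : Measure ℝ).prod volume) := by
    have := hF'.comp_measurable hmp.measurable
    rw [← Measure.volume_eq_prod]
    exact this
  have h4 := h2.integral_prod_left
  refine h4.congr (Eventually.of_forall fun t => ?_)
  simp only
  have h3 : ∀ s, D.indicator (fun z => yc ψ z) (fr ψ (t, s)) =
      (sl D ψ t).indicator (fun s => s) s := by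
    intro s
    by_cases hs : fr ψ (t, s) ∈ D
    · rw [indicator_of_mem hs, indicator_of_mem (show s ∈ sl D ψ t from hs), yc_fr]
    · rw [indicator_of_notMem hs, indicator_of_notMem (show s ∉ sl D ψ t from hs)]
  simp_rw [h3]
  rw [integral_indicator (sl_compact hDc ψ t).measurableSet]

/-- bodies with the same X-ray and the same first moments are equal -/
lemma sub_of_mom {D D' : Set ℂ} (hD : Body D) (hD' : Body D') {ψ : ℝ} (hX : SameX D D' ψ)
    (h : ∀ g : ℝ → ℝ, ContDiff ℝ ((⊤ : ℕ∞) : WithTop ℕ∞) g → HasCompactSupport g →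
      ∫ z in D, g (tc ψ z) * yc ψ z = ∫ z in D', g (tc ψ z) * yc ψ z) : D ⊆ D' := by
  have hae : ∀ᵐ t : ℝ, (∫ s in sl D ψ t, s) = ∫ s in sl D' ψ t, s := by
    apply ae_eq_of_integral_contDiff_smul_eq (mom_int hD.cpt ψ).locallyIntegrable
      (mom_int hD'.cpt ψ).locallyIntegrable
    intro g hg hgc
    have := h g hg hgc
    rw [fubini hD.cpt ψ hg.continuous, fubini hD'.cpt ψ hg.continuous] at this
    simpa [smul_eq_mul] using this
  have hint : interior D ⊆ D' := by
    intro z hz
    by_contra hzn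
    have hopen : IsOpen (interior D ∩ D'ᶜ) :=
      isOpen_interior.inter hD'.cpt.isClosed.isOpen_compl
    have hfo : IsOpen (fr ψ ⁻¹' (interior D ∩ D'ᶜ)) := hopen.preimage (fr_cont ψ)
    have hmem : (tc ψ z, yc ψ z) ∈ fr ψ ⁻¹' (interior D ∩ D'ᶜ) := by
      rw [mem_preimage, fr_tc_yc]
      exact ⟨hz, hzn⟩
    have hT : IsOpen {t : ℝ | (t, yc ψ z) ∈ fr ψ ⁻¹' (interior D ∩ D'ᶜ)} :=
      hfo.preimage (by fun_prop)
    have hTp : 0 < volume {t : ℝ | (t, yc ψ z) ∈ fr ψ ⁻¹' (interior D ∩ D'ᶜ)} :=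
      hT.measure_pos volume ⟨tc ψ z, hmem⟩
    obtain ⟨t, ht1, ht2⟩ := ((frequently_ae_mem_iff.2 hTp.ne').and_eventually hae).exists
    have ht1' : fr ψ (t, yc ψ z) ∈ interior D ∩ D'ᶜ := ht1
    have hpos : 0 < volume (sl D ψ t) := by
      have ho : IsOpen {s : ℝ | fr ψ (t, s) ∈ interior D} :=
        isOpen_interior.preimage ((fr_cont ψ).comp (by fun_prop : Continuous fun s : ℝ => (t, s)))
      refine lt_of_lt_of_le (ho.measure_pos volume ⟨yc ψ z, ht1'.1⟩) (measure_mono ?_)
      intro s (hs : fr ψ (t, s) ∈ interior D)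
      exact (interior_subset hs : fr ψ (t, s) ∈ D)
    have hv : volume (sl D ψ t) = volume (sl D' ψ t) := hX ((t : ℂ) * (Complex.I * e ψ))
    have heq := sl_eq hD.conv hD.cpt hD'.conv hD'.cpt hv hpos ht2
    have h5 : yc ψ z ∈ sl D' ψ t := heq ▸ (interior_subset ht1'.1 : _ ∈ D)
    exact ht1'.2 h5
  have hcl : closure (interior D) = D := by
    rw [hD.conv.closure_interior_eq_closure_of_nonempty_interior ⟨0, hD.zero⟩,
      hD.cpt.isClosed.closure_eq]
  rw [← hcl]
  exact closure_minimal hint hD'.cpt.isClosed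

/-- convergence of integrals -/
lemma lim_int {C : ℕ → Set ℂ} {D : Set ℂ} {R B : ℝ} (hC : ∀ n, Body (C n)) (hD : Body D)
    (hlim : BLim C D) (hR : ∀ n, C n ⊆ closedBall (0 : ℂ) R) {G : ℕ → ℂ → ℝ} {G' : ℂ → ℝ}
    (hG : ∀ n, Continuous (G n)) (hGl : ∀ z, Tendsto (fun n => G n z) atTop (𝓝 (G' z)))
    (hB : ∀ n, ∀ z ∈ closedBall (0 : ℂ) R, |G n z| ≤ B) :
    Tendsto (fun n => ∫ z in C n, G n z) atTop (𝓝 (∫ z in D, G' z)) := by
  have h1 : ∀ n, ∫ z in C n, G n z = ∫ z, (C n).indicator (G n) z := fun n =>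
    (integral_indicator (hC n).cpt.measurableSet).symm
  simp_rw [h1]
  rw [← integral_indicator hD.cpt.measurableSet]
  apply tendsto_integral_of_dominated_convergence
    (bound := (closedBall (0 : ℂ) R).indicator fun _ => B)
  · intro n
    exact (hG n).aestronglyMeasurable.indicator (hC n).cpt.measurableSet
  · rw [integrable_indicator_iff isClosed_closedBall.measurableSet]
    exact integrableOn_const (isCompact_closedBall _ _).measure_lt_top.ne
  · intro n
    refine Eventually.of_forall fun z => ?_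
    by_cases hz : z ∈ C n
    · rw [indicator_of_mem hz, indicator_of_mem (hR n hz), Real.norm_eq_abs]
      exact hB n z (hR n hz)
    · rw [indicator_of_notMem hz, norm_zero]
      by_cases hz2 : z ∈ closedBall (0 : ℂ) R
      · rw [indicator_of_mem hz2]
        exact (abs_nonneg _).trans (hB n z hz2)
      · rw [indicator_of_notMem hz2]
  · have hfr : ∀ᵐ z : ℂ, z ∉ frontier D := by
      rw [ae_iff]
      simpa using hD.conv.addHaar_frontier volume
    filter_upwards [hfr] with z hz
    set α := Complex.arg z with hα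
    have hzr : ((‖z‖ : ℝ) : ℂ) * e α = z := by
      rw [e, hα]
      exact Complex.norm_mul_exp_arg_mul_I z
    have hpt : Tendsto (fun n => rad (C n) α) atTop (𝓝 (rad D α)) := hlim.tendsto_at α
    by_cases hzD : z ∈ D
    · have hzi : z ∈ interior D := by
        by_contra hcon
        exact hz ⟨subset_closure hzD, hcon⟩
      rw [indicator_of_mem hzD]
      have h2 : ‖z‖ < rad D α := by
        rw [← hzr] at hzi
        exact (mem_interior_iff_lt_rad hD α (norm_nonneg z)).1 hzi
      have h3 : ∀ᶠ n in atTop, ‖z‖ < rad (C n) α := hpt.eventually (lt_mem_nhds h2)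
      apply (hGl z).congr'
      filter_upwards [h3] with n hn
      have : z ∈ C n := by
        rw [← hzr]
        exact (mem_iff_le_rad (hC n) α (norm_nonneg z)).2 hn.le
      rw [indicator_of_mem this]
    · rw [indicator_of_notMem hzD]
      have h2 : rad D α < ‖z‖ := by
        by_contra hcon
        push Not at hcon
        apply hzD
        rw [← hzr]
        exact (mem_iff_le_rad hD α (norm_nonneg z)).2 hcon
      have h3 : ∀ᶠ n in atTop, rad (C n) α < ‖z‖ := hpt.eventually (gt_mem_nhds h2)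
      apply tendsto_const_nhds.congr'
      filter_upwards [h3] with n hn
      have : z ∉ C n := by
        intro hcon
        rw [← hzr] at hcon
        have := (mem_iff_le_rad (hC n) α (norm_nonneg z)).1 hcon
        linarith
      rw [indicator_of_notMem this]

/-- all continuous functions of `tc φ` -/
lemma sameX_fun {C C' : Set ℂ} (hc : IsCompact C)
    (hc' : IsCompact C') {φ : ℝ} (hX : SameX C C' φ) {f : ℝ → ℝ} (hf : Continuous f) :
    ∫ z in C, f (tc φ z) = ∫ z in C', f (tc φ z) := by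
  have hm : Measurable (tc φ) := (continuous_tc φ).measurable
  have key : Measure.map (tc φ) (volume.restrict C) = Measure.map (tc φ) (volume.restrict C') := by
    ext T hT
    rw [Measure.map_apply hm hT, Measure.map_apply hm hT, Measure.restrict_apply (hm hT),
      Measure.restrict_apply (hm hT), inter_comm, inter_comm _ C']
    exact sameX_tc hc hc' hX hT
  have h1 : ∀ D : Set ℂ, ∫ z in D, f (tc φ z) =
      ∫ x, f x ∂(Measure.map (tc φ) (volume.restrict D)) := by
    intro D
    exact (integral_map hm.aemeasurable hf.aestronglyMeasurable).symm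
  rw [h1, h1, key]

/-- the difference quotient -/
lemma dq_lim {f g : ℝ → ℝ} (hf : ∀ x, HasStrictDerivAt f (g x) x) {a y s : ℕ → ℝ} {a' y' : ℝ}
    (ha : Tendsto a atTop (𝓝 a')) (hy : Tendsto y atTop (𝓝 y')) (hs : Tendsto s atTop (𝓝 0))
    (hs0 : ∀ n, s n ≠ 0) :
    Tendsto (fun n => (f (a n) - f (a n - s n * y n)) / s n) atTop (𝓝 (g a' * y')) := by
  have hsy : Tendsto (fun n => a n - s n * y n) atTop (𝓝 a') := by
    have := ha.sub (hs.mul hy)
    simpa using this
  have h1 := (hf a').isLittleO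
  have h2 : Tendsto (fun n => (a n, a n - s n * y n)) atTop (𝓝 (a', a')) := by
    rw [nhds_prod_eq]
    exact ha.prodMk hsy
  have h3 := h1.comp_tendsto h2
  have h4 : (fun n => s n * y n) =O[atTop] s := by
    have h5 : y =O[atTop] (fun _ => (1 : ℝ)) := hy.isBigO_one ℝ
    have h6 := (isBigO_refl s atTop).mul h5
    simpa using h6
  have h5 : (fun n => f (a n) - f (a n - s n * y n) - (s n * y n) * g a') =o[atTop] s := by
    refine IsLittleO.trans_isBigO ?_ h4
    refine (h3.congr ?_ ?_)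
    · intro n
      simp [Function.comp, smul_eq_mul]
    · intro n
      simp [Function.comp]
  have h6 := h5.tendsto_div_nhds_zero
  have h7 : Tendsto (fun n => y n * g a') atTop (𝓝 (y' * g a')) := hy.mul_const _
  have h8 := h6.add h7
  rw [zero_add, mul_comm] at h8
  refine h8.congr fun n => ?_
  field_simp [hs0 n]
  ring

lemma dq_bound {f g : ℝ → ℝ} (hf : ∀ x, HasStrictDerivAt f (g x) x) {B : ℝ}
    (hg : ∀ x, |g x| ≤ B) (x y : ℝ) : |f x - f y| ≤ B * |x - y| := by
  have := Convex.norm_image_sub_le_of_norm_hasDerivWithin_le (f := f) (f' := g) (s := univ)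
    (C := B) (x := y) (y := x) (fun z _ => (hf z).hasDerivAt.hasDerivWithinAt)
    (fun z _ => by simpa [Real.norm_eq_abs] using hg z) convex_univ (mem_univ _) (mem_univ _)
  simpa [Real.norm_eq_abs] using this

/-- the limit identity -/
lemma lim_mom {C C' : ℕ → Set ℂ} {D D' : Set ℂ} {R : ℝ} (hC : ∀ n, Body (C n))
    (hC' : ∀ n, Body (C' n)) (hD : Body D) (hD' : Body D') (hl : BLim C D) (hl' : BLim C' D')
    (hR : ∀ n, C n ⊆ closedBall (0 : ℂ) R) (hR' : ∀ n, C' n ⊆ closedBall (0 : ℂ) R)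
    {φ θ : ℕ → ℝ} {ψ : ℝ} (hφ : Tendsto φ atTop (𝓝 ψ)) (hθ : Tendsto θ atTop (𝓝 0))
    (hs : ∀ n, Real.sin (θ n) ≠ 0)
    (hX : ∀ n, SameX (C n) (C' n) (φ n)) (hX' : ∀ n, SameX (C n) (C' n) (φ n + θ n))
    {g : ℝ → ℝ} (hg : ContDiff ℝ ((⊤ : ℕ∞) : WithTop ℕ∞) g) (hgc : HasCompactSupport g) :
    ∫ z in D, g (tc ψ z) * yc ψ z = ∫ z in D', g (tc ψ z) * yc ψ z := by
  have hgcont := hg.continuous
  obtain ⟨B, hB⟩ := hgc.exists_bound_of_continuous hgcont
  set f : ℝ → ℝ := fun x => ∫ t in (0 : ℝ)..x, g t with hf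
  have hfd : ∀ x, HasStrictDerivAt f (g x) x := fun x => hgcont.integral_hasStrictDerivAt 0 x
  have hfc : Continuous f := continuous_iff_continuousAt.2 fun x => (hfd x).hasDerivAt.continuousAt
  set G : ℕ → ℂ → ℝ := fun n z => (f (Real.cos (θ n) * tc (φ n) z) -
    f (Real.cos (θ n) * tc (φ n) z - Real.sin (θ n) * yc (φ n) z)) / Real.sin (θ n) with hG
  have hGc : ∀ n, Continuous (G n) := by
    intro n
    have h1 := continuous_tc (φ n)
    have h2 := continuous_yc (φ n)
    simp only [hG]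
    fun_prop
  have hB0 : 0 ≤ B := (norm_nonneg _).trans (hB 0)
  have hGB : ∀ n, ∀ z ∈ closedBall (0 : ℂ) R, |G n z| ≤ B * R := by
    intro n z hz
    rw [mem_closedBall, dist_zero_right] at hz
    simp only [hG]
    rw [abs_div, div_le_iff₀ (abs_pos.2 (hs n))]
    refine (dq_bound hfd (fun x => by simpa [Real.norm_eq_abs] using hB x) _ _).trans ?_
    rw [sub_sub_cancel, abs_mul]
    have h1 := (abs_yc_le (φ n) z).trans hz
    have h2 : |Real.sin (θ n)| * |yc (φ n) z| ≤ |Real.sin (θ n)| * R :=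
      mul_le_mul_of_nonneg_left h1 (abs_nonneg _)
    calc B * (|Real.sin (θ n)| * |yc (φ n) z|) ≤ B * (|Real.sin (θ n)| * R) :=
          mul_le_mul_of_nonneg_left h2 hB0
      _ = _ := by ring
  have hsl : Tendsto (fun n => Real.sin (θ n)) atTop (𝓝 0) := by
    have := (Real.continuous_sin.tendsto 0).comp hθ
    rw [Real.sin_zero] at this
    exact this
  have hcl : Tendsto (fun n => Real.cos (θ n)) atTop (𝓝 1) := by
    have := (Real.continuous_cos.tendsto 0).comp hθ
    rw [Real.cos_zero] at this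
    exact this
  have hsφ : Tendsto (fun n => Real.sin (φ n)) atTop (𝓝 (Real.sin ψ)) :=
    (Real.continuous_sin.tendsto ψ).comp hφ
  have hcφ : Tendsto (fun n => Real.cos (φ n)) atTop (𝓝 (Real.cos ψ)) :=
    (Real.continuous_cos.tendsto ψ).comp hφ
  have htl : ∀ z, Tendsto (fun n => tc (φ n) z) atTop (𝓝 (tc ψ z)) := by
    intro z
    exact (hcφ.mul_const _).sub (hsφ.mul_const _)
  have hyl : ∀ z, Tendsto (fun n => yc (φ n) z) atTop (𝓝 (yc ψ z)) := by
    intro z
    exact (hcφ.mul_const _).add (hsφ.mul_const _)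
  have hGl : ∀ z, Tendsto (fun n => G n z) atTop (𝓝 (g (tc ψ z) * yc ψ z)) := by
    intro z
    apply dq_lim hfd _ (hyl z) hsl hs
    have := hcl.mul (htl z)
    simpa using this
  have h1 := lim_int hC hD hl hR hGc hGl hGB
  have h2 := lim_int hC' hD' hl' hR' hGc hGl hGB
  have heq : ∀ n, ∫ z in C n, G n z = ∫ z in C' n, G n z := by
    intro n
    have e1 : ∀ {E : Set ℂ}, IsCompact E → ∫ z in E, G n z =
        ((∫ z in E, f (Real.cos (θ n) * tc (φ n) z)) - ∫ z in E, f (tc (φ n + θ n) z)) /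
          Real.sin (θ n) := by
      intro E hE
      have h3 := continuous_tc (φ n)
      have h4 := continuous_tc (φ n + θ n)
      rw [← integral_sub, ← integral_div]
      · apply integral_congr_ae
        refine Eventually.of_forall fun z => ?_
        simp only [hG, tc_rot']
      · exact (by fun_prop : Continuous fun z => f (Real.cos (θ n) * tc (φ n) z)
          ).continuousOn.integrableOn_compact hE
      · exact (by fun_prop : Continuous fun z => f (tc (φ n + θ n) z)
          ).continuousOn.integrableOn_compact hE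
    rw [e1 (hC n).cpt, e1 (hC' n).cpt,
      sameX_fun (hC n).cpt (hC' n).cpt (hX n) (f := fun x => f (Real.cos (θ n) * x))
        (by fun_prop),
      sameX_fun (hC n).cpt (hC' n).cpt (hX' n) hfc]
  simp_rw [heq] at h1
  exact tendsto_nhds_unique h1 h2

lemma per_tc (φ : ℝ) (k : ℤ) (z : ℂ) : tc (φ - k * (2 * π)) z = tc φ z := by
  simp only [tc, Real.cos_sub_int_mul_two_pi, Real.sin_sub_int_mul_two_pi]

lemma per_yc (φ : ℝ) (k : ℤ) (z : ℂ) : yc (φ - k * (2 * π)) z = yc φ z := by
  simp only [yc, Real.cos_sub_int_mul_two_pi, Real.sin_sub_int_mul_two_pi]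

lemma per_e (φ : ℝ) (k : ℤ) : e (φ - k * (2 * π)) = e φ := by
  simp only [e_eq, Real.cos_sub_int_mul_two_pi, Real.sin_sub_int_mul_two_pi]

end TLA

open TLA SLP in
theorem t_tla (hCPT : CPTStmt) (hSXC : SXCStmt) (hINB : INBStmt) : TLAStmt := by
  intro r R A ε hr hε
  by_contra hcon
  push Not at hcon
  have hex : ∀ n : ℕ, ∃ (C C' : Set ℂ) (φ θ α : ℝ), Bd r R C ∧ ∫ z in C, z = 0 ∧
      PM C C' φ (φ + θ) ∧ θ < 1 / ((n : ℝ) + 1) ∧ (∀ z ∈ C', |yc φ z| ≤ A) ∧
      ε < |rad C' α - rad C α| := by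
    intro n
    obtain ⟨C, C', φ, θ, h1, h2, h3, h4, h5, α, h6⟩ := hcon (1 / ((n : ℝ) + 1)) (by positivity)
    exact ⟨C, C', φ, θ, α, h1, h2, h3, h4, h5, h6⟩
  choose C C' φ θ α hBd hI hPM hθ hA hbad using hex
  have hR0 : 0 ≤ R := by
    have := (hBd 0).out (interior_subset (hBd 0).body.zero)
    simpa using this
  set R' := R + |A| with hR'
  have hRR' : R ≤ R' := by rw [hR']; linarith [abs_nonneg A]
  have hCR : ∀ n, C n ⊆ closedBall (0 : ℂ) R' := fun n =>
    (hBd n).out.trans (closedBall_subset_closedBall hRR')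
  have hCR' : ∀ n, C' n ⊆ closedBall (0 : ℂ) R' := by
    intro n z hz
    rw [mem_closedBall, dist_zero_right]
    have h1 := tc_bd (hPM n).b' (hBd n).out (hPM n).x0 hz
    have h2 := hA n z hz
    have h3 := decomp (φ n) z
    calc ‖z‖ = ‖(yc (φ n) z : ℂ) * e (φ n) + (tc (φ n) z : ℂ) * (Complex.I * e (φ n))‖ := by
          rw [← h3]
      _ ≤ ‖(yc (φ n) z : ℂ) * e (φ n)‖ + ‖(tc (φ n) z : ℂ) * (Complex.I * e (φ n))‖ :=
          norm_add_le _ _
      _ = |yc (φ n) z| + |tc (φ n) z| := by simp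
      _ ≤ A + R := by linarith
      _ ≤ R' := by rw [hR']; linarith [le_abs_self A]
  -- the inner ball of the mates
  set V : ℝ := (volume (ball (0 : ℂ) r)).toReal with hV
  have hVtop : volume (ball (0 : ℂ) r) ≠ ⊤ := measure_ball_lt_top.ne
  have hVp : 0 < V := ENNReal.toReal_pos (measure_ball_pos volume _ hr).ne' hVtop
  obtain ⟨r', hr', hin⟩ := hINB R' V hVp
  have hBd' : ∀ n, Bd r' R' (C' n) := by
    intro n
    apply hin (C' n) (hPM n).b'.conv (hPM n).b'.cpt (hCR' n)
    · rw [hV, ENNReal.ofReal_toReal hVtop, ← sameX_volume (hPM n).b.cpt (hPM n).b'.cpt (hPM n).x0]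
      exact measure_mono (hBd n).inn
    · rw [← sameX_integral (hPM n).b.cpt (hPM n).b'.cpt (hPM n).h01 (hPM n).h10 (hPM n).x0
        (hPM n).x1, hI n]
  -- angles mod 2π
  set k : ℕ → ℤ := fun n => ⌊φ n / (2 * π)⌋ with hk
  set φ' : ℕ → ℝ := fun n => φ n - k n * (2 * π) with hφ'
  have hφI : ∀ n, φ' n ∈ Icc 0 (2 * π) := by
    intro n
    have h1 := Int.floor_le (φ n / (2 * π))
    have h2 := Int.lt_floor_add_one (φ n / (2 * π))
    have h3 : (0 : ℝ) < 2 * π := by positivity
    rw [le_div_iff₀ h3] at h1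
    rw [div_lt_iff₀ h3] at h2
    simp only [hφ', hk]
    constructor <;> nlinarith
  obtain ⟨ψ, -, σ1, hσ1, hψ⟩ := isCompact_Icc.tendsto_subseq hφI
  obtain ⟨D, σ2, hσ2, hD, hlD⟩ := hCPT r R (fun n => C (σ1 n)) hr (fun n => hBd _)
  obtain ⟨D', σ3, hσ3, hD', hlD'⟩ := hCPT r' R' (fun n => C' (σ1 (σ2 n))) hr' (fun n => hBd' _)
  set σ : ℕ → ℕ := fun n => σ1 (σ2 (σ3 n)) with hσ
  have hσm : StrictMono σ := hσ1.comp (hσ2.comp hσ3)
  have hlD2 : BLim (fun n => C (σ n)) D := by
    intro u hu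
    exact hσ3.tendsto_atTop.eventually (hlD u hu)
  have hlD2' : BLim (fun n => C' (σ n)) D' := hlD'
  have hψ2 : Tendsto (fun n => φ' (σ n)) atTop (𝓝 ψ) :=
    hψ.comp ((hσ2.comp hσ3).tendsto_atTop)
  have hθ0 : ∀ n, 0 < θ n := fun n => by linarith [(hPM n).h01]
  have hθl : Tendsto θ atTop (𝓝 0) := by
    apply squeeze_zero (fun n => (hθ0 n).le) (fun n => (hθ n).le)
    exact tendsto_one_div_add_atTop_nhds_zero_nat
  have hθ2 : Tendsto (fun n => θ (σ n)) atTop (𝓝 0) := hθl.comp hσm.tendsto_atTop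
  have hsin : ∀ n, Real.sin (θ n) ≠ 0 := by
    intro n
    have h1 : θ n < 1 := by
      apply (hθ n).trans_le
      rw [div_le_one (by positivity)]
      linarith [(Nat.cast_nonneg n : (0 : ℝ) ≤ n)]
    exact (Real.sin_pos_of_pos_of_lt_pi (hθ0 n) (by linarith [Real.pi_gt_three])).ne'
  have hX0 : ∀ n, SameX (C n) (C' n) (φ' n) := by
    intro n p
    simp only [hφ', per_e]
    exact (hPM n).x0 p
  have hX1 : ∀ n, SameX (C n) (C' n) (φ' n + θ n) := by
    intro n p
    have : φ' n + θ n = (φ n + θ n) - k n * (2 * π) := by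
      simp only [hφ']; ring
    simp only [this, per_e]
    exact (hPM n).x1 p
  have hXD : SameX D D' ψ := hSXC (fun n => C (σ n)) (fun n => C' (σ n)) D D'
    (fun n => φ' (σ n)) ψ (fun n => (hPM _).b) (fun n => (hPM _).b') hD.body hD'.body hlD2 hlD2'
    hψ2 (fun n => hX0 _)
  have hmom : ∀ g : ℝ → ℝ, ContDiff ℝ ((⊤ : ℕ∞) : WithTop ℕ∞) g → HasCompactSupport g →
      ∫ z in D, g (tc ψ z) * yc ψ z = ∫ z in D', g (tc ψ z) * yc ψ z := by
    intro g hg hgc
    exact lim_mom (C := fun n => C (σ n)) (C' := fun n => C' (σ n)) (fun n => (hPM _).b)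
      (fun n => (hPM _).b') hD.body hD'.body hlD2 hlD2' (fun n => hCR _) (fun n => hCR' _)
      hψ2 hθ2 (fun n => hsin _) (fun n => hX0 _) (fun n => hX1 _) hg hgc
  have hDD : D = D' := by
    apply Subset.antisymm
    · exact sub_of_mom hD.body hD'.body hXD hmom
    · exact sub_of_mom hD'.body hD.body (fun p => (hXD p).symm)
        (fun g hg hgc => (hmom g hg hgc).symm)
  have h1 := Metric.tendstoUniformly_iff.1 hlD2 (ε / 2) (by linarith)
  have h2 := Metric.tendstoUniformly_iff.1 hlD2' (ε / 2) (by linarith)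
  obtain ⟨n, h3, h4⟩ := (h1.and h2).exists
  have h5 := h3 (α (σ n))
  have h6 := h4 (α (σ n))
  rw [← hDD] at h6
  rw [Real.dist_eq] at h5 h6
  have h7 := hbad (σ n)
  have h8 : |rad (C' (σ n)) (α (σ n)) - rad (C (σ n)) (α (σ n))| < ε := by
    rw [abs_lt] at h5 h6 ⊢
    constructor <;> linarith [h5.1, h5.2, h6.1, h6.2]
  linarith

end Pool.XR2
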